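import Pool.Agent.helper59.BR.SpecH

/-!
# Project BR (MP_baa4d7_al), block H, row PRO: the sum of the projections over the classes of a subgroup
-/

set_option autoImplicit false

namespace Pool.Agent.BR

open Pool.Agent.helper58.DC Pool.Agent.DI Pool.Agent.GR Pool.Agent.OB Pool.Agent.DR Pool.Agent.FI Pool.Agent.FI3 Pool.Agent.FI4 Pool.Agent.LE

theorem PRO (hHBP : HBP_stmt) (hHWT : HWT_stmt) (hHPT : HPT_stmt) (hHPO : HPO_stmt) (hB2 : B2_stmt) : PRO_stmt := by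
  intro p M hM G _ _ D x θ χ lo K hKD hKT ψ₀ hψ₀
  classical
  have hfin : (Bl M (⊤ : Subgroup G) θ).Finite := (hB2 G ⊤).1.subset fun ψ hψ => hψ.1
  have : Fintype (Bl M (⊤ : Subgroup G) θ) := hfin.fintype
  have : Fintype K := Fintype.ofFinite K
  have hW := fun u : K => hHWT M G D θ lo.rt.th u.1 (hKD u.2)
  choose c hc1 hc using fun u : K => (hW u).2
  have hI0 : iI M D θ ≠ 0 := by
    unfold iI
    exact Subgroup.index_ne_zero_of_finite
  have hI : (0 : ℝ) < iI M D θ := by exact_mod_cast Nat.pos_of_ne_zero hI0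
  have key := hHBP (Bl M (⊤ : Subgroup G) θ) K (fun u u' => ∃ t ∈ TT M D θ, t * (u : G) * t⁻¹ = u') (fun u => c u / iI M D θ)
    (fun u ψ => PP p M θ ψ ψ₀ u) ⟨ψ₀, hψ₀⟩ (fun u => div_nonneg (by linarith [hc1 u]) hI.le) ?_ ?_ ?_ ?_
  · have h2 := key.1
    rw [← finsum_set_coe_eq_finsum_mem, finsum_eq_sum_of_fintype]
    have h3 : ∀ ψ : Bl M (⊤ : Subgroup G) θ, ‖∑ᶠ u ∈ (K : Set G), ci M D θ u * PP p M θ ψ ψ₀ u‖ ^ 2 =
        (iI M D θ : ℝ) ^ 2 * ‖∑ u : K, ((c u / iI M D θ : ℝ) : ℂ) * PP p M θ ψ ψ₀ u‖ ^ 2 := by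
      intro ψ
      have h4 : ∑ᶠ u ∈ (K : Set G), ci M D θ u * PP p M θ ψ ψ₀ u =
          ((iI M D θ : ℝ) : ℂ) * ∑ u : K, ((c u / iI M D θ : ℝ) : ℂ) * PP p M θ ψ ψ₀ u := by
        rw [← finsum_set_coe_eq_finsum_mem, finsum_eq_sum_of_fintype, Finset.mul_sum]
        refine Finset.sum_congr rfl fun u _ => ?_
        rw [hc u, ← mul_assoc, ← Complex.ofReal_mul]
        congr 2
        field_simp
      rw [h4, norm_mul, Complex.norm_real, Real.norm_of_nonneg hI.le, mul_pow]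
    rw [Finset.sum_congr rfl fun ψ _ => h3 ψ, ← Finset.mul_sum]
    calc (iI M D θ : ℝ) ^ 2 * ∑ ψ : Bl M (⊤ : Subgroup G) θ, ‖∑ u : K, ((c u / iI M D θ : ℝ) : ℂ) * PP p M θ ψ ψ₀ u‖ ^ 2
        ≤ (iI M D θ : ℝ) ^ 2 * 1 := mul_le_mul_of_nonneg_left h2 (by positivity)
      _ = _ := mul_one _
  · -- the weights
    intro u
    have h1 := (hW u).1
    have h2 : {u' : G | ∃ t ∈ TT M D θ, t * (u : G) * t⁻¹ = u'} = (Subtype.val : K → G) '' {u' : K | ∃ t ∈ TT M D θ, t * (u : G) * t⁻¹ = u'} := by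
      ext g
      constructor
      · rintro ⟨t, ht, rfl⟩
        exact ⟨⟨_, hKT t ht u u.2⟩, ⟨t, ht, rfl⟩, rfl⟩
      · rintro ⟨u', ⟨t, ht, h⟩, rfl⟩
        exact ⟨t, ht, h⟩
    rw [h2, finsum_mem_image Subtype.val_injective.injOn, finsum_mem_eq_finite_toFinset_sum _ (Set.toFinite _)] at h1
    rw [finsum_mem_eq_finite_toFinset_sum _ (Set.toFinite _), ← Finset.sum_div]
    have h3 : ((∑ u' ∈ (Set.toFinite {u' : K | ∃ t ∈ TT M D θ, t * (u : G) * t⁻¹ = u'}).toFinset, c u' : ℝ) : ℂ) = ((iI M D θ : ℝ) : ℂ) := by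
      push_cast
      rw [← h1]
      exact Finset.sum_congr rfl fun u' _ => (hc u').symm
    rw [Complex.ofReal_injective h3, div_self hI.ne']
  · rintro u u' ⟨t, ht, h⟩
    funext ψ
    show PP p M θ ψ ψ₀ u' = PP p M θ ψ ψ₀ u
    rw [← h]
    exact hHPT p M hM G D x θ χ lo u (hKD u.2) t ht ψ ψ.2.1 ψ₀ hψ₀.1
  · intro u u' h
    have h1 := (hHPO p M hM G D x θ χ lo ψ₀ hψ₀ u (hKD u.2)).2 u' (hKD u'.2) (fun t ht h2 => h ⟨t, ht, h2⟩)
    rw [← finsum_set_coe_eq_finsum_mem, finsum_eq_sum_of_fintype] at h1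
    exact h1
  · intro u
    have h1 := (hHPO p M hM G D x θ χ lo ψ₀ hψ₀ u (hKD u.2)).1
    rw [← finsum_set_coe_eq_finsum_mem, finsum_eq_sum_of_fintype] at h1
    exact h1

end Pool.Agent.BR
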